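import Mathlib
import Pool.Agent.X279.SkewLaurent

/-!
# Skew Laurent series rings over right semidistributive right Artinian rings

Let `C = k × k` with the swap `τ`, `k` the field with two elements, and let
`A = C ⊕ C γ ⊕ C δ` with `γ u = u γ`, `δ u = τ(u) δ` (`u ∈ C`) and all products of `γ, δ` zero.
Then `A` is right semidistributive and finite.  In `R = A((x, φ))`, where `φ = τ` on each
coordinate, the elements `γ` and `ε = δ x` are central with products zero, and for each idempotent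
`e ≠ 0` the submodules generated by `e γ`, `e ε`, `e (γ + ε)` violate distributivity.
-/

set_option autoImplicit false

namespace Pool.Agent.Results.MP_d4f5ca_al.SemidistributiveFails

open Pool.Agent.X279 MulOpposite

/-! ### Definitions -/

/-- Distributive modules. -/
def IsDistributive (S M : Type) [Ring S] [AddCommGroup M] [Module S M] : Prop :=
  ∀ F G H : Submodule S M, F ⊓ (G ⊔ H) = (F ⊓ G) ⊔ (F ⊓ H)

/-- Semidistributive modules: (internal) direct sums of distributive submodules. -/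
def IsSemidistributive (S M : Type) [Ring S] [AddCommGroup M] [Module S M] : Prop :=
  ∃ (I : Type) (N : I → Submodule S M), iSupIndep N ∧ (⨆ i, N i) = ⊤ ∧
    ∀ i, IsDistributive S (N i)

/-- Right semidistributive rings; a right module over `R` is a module over `Rᵐᵒᵖ`. -/
def RightSemidistributive (R : Type) [Ring R] : Prop := IsSemidistributive Rᵐᵒᵖ R

/-! ### The coefficient ring -/

/-- `C = k × k`. -/
abbrev CC : Type := ZMod 2 × ZMod 2

/-- The ring `A = C ⊕ C γ ⊕ C δ`. -/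
@[ext] structure AA : Type where
  /-- the coefficient of `1` -/
  u : CC
  /-- the coefficient of `γ` -/
  g : CC
  /-- the coefficient of `δ` -/
  d : CC

namespace AA

instance : Zero AA := ⟨⟨0, 0, 0⟩⟩
instance : One AA := ⟨⟨1, 0, 0⟩⟩
instance : Add AA := ⟨fun x y => ⟨x.u + y.u, x.g + y.g, x.d + y.d⟩⟩
instance : Neg AA := ⟨fun x => ⟨-x.u, -x.g, -x.d⟩⟩
instance : Mul AA := ⟨fun x y => ⟨x.u * y.u, x.u * y.g + x.g * y.u, x.u * y.d + x.d * y.u.swap⟩⟩

@[simp] theorem zero_u : (0 : AA).u = 0 := rfl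
@[simp] theorem zero_g : (0 : AA).g = 0 := rfl
@[simp] theorem zero_d : (0 : AA).d = 0 := rfl
@[simp] theorem one_u : (1 : AA).u = 1 := rfl
@[simp] theorem one_g : (1 : AA).g = 0 := rfl
@[simp] theorem one_d : (1 : AA).d = 0 := rfl
@[simp] theorem add_u (x y : AA) : (x + y).u = x.u + y.u := rfl
@[simp] theorem add_g (x y : AA) : (x + y).g = x.g + y.g := rfl
@[simp] theorem add_d (x y : AA) : (x + y).d = x.d + y.d := rfl
@[simp] theorem neg_u (x : AA) : (-x).u = -x.u := rfl
@[simp] theorem neg_g (x : AA) : (-x).g = -x.g := rfl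
@[simp] theorem neg_d (x : AA) : (-x).d = -x.d := rfl
@[simp] theorem mul_u (x y : AA) : (x * y).u = x.u * y.u := rfl
@[simp] theorem mul_g (x y : AA) : (x * y).g = x.u * y.g + x.g * y.u := rfl
@[simp] theorem mul_d (x y : AA) : (x * y).d = x.u * y.d + x.d * y.u.swap := rfl

theorem swap_mul' (a b : CC) : (a * b).swap = a.swap * b.swap := rfl
theorem swap_add' (a b : CC) : (a + b).swap = a.swap + b.swap := rfl
theorem swap_zero' : (0 : CC).swap = 0 := rfl
theorem swap_one' : (1 : CC).swap = 1 := rfl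

instance : Ring AA where
  add_assoc x y z := by ext1 <;> simp only [add_u, add_g, add_d] <;> ring
  zero_add x := by ext1 <;> simp only [add_u, add_g, add_d, zero_u, zero_g, zero_d] <;> ring
  add_zero x := by ext1 <;> simp only [add_u, add_g, add_d, zero_u, zero_g, zero_d] <;> ring
  add_comm x y := by ext1 <;> simp only [add_u, add_g, add_d] <;> ring
  neg_add_cancel x := by
    ext1 <;> simp only [add_u, add_g, add_d, zero_u, zero_g, zero_d, neg_u, neg_g, neg_d] <;> ring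
  left_distrib x y z := by
    ext1 <;> simp only [add_u, add_g, add_d, mul_u, mul_g, mul_d, swap_add'] <;> ring
  right_distrib x y z := by
    ext1 <;> simp only [add_u, add_g, add_d, mul_u, mul_g, mul_d, swap_add'] <;> ring
  zero_mul x := by ext1 <;> simp only [mul_u, mul_g, mul_d, zero_u, zero_g, zero_d] <;> ring
  mul_zero x := by
    ext1 <;> simp only [mul_u, mul_g, mul_d, zero_u, zero_g, zero_d, swap_zero'] <;> ring
  mul_assoc x y z := by
    ext1 <;> simp only [mul_u, mul_g, mul_d, swap_mul'] <;> ring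
  one_mul x := by ext1 <;> simp only [mul_u, mul_g, mul_d, one_u, one_g, one_d] <;> ring
  mul_one x := by
    ext1 <;> simp only [mul_u, mul_g, mul_d, one_u, one_g, one_d, swap_one'] <;> ring
  nsmul := nsmulRec
  zsmul := zsmulRec

end AA

/-- The automorphism `φ`: the swap on each coordinate. -/
def phi : RingAut AA where
  toFun x := ⟨x.u.swap, x.g.swap, x.d.swap⟩
  invFun x := ⟨x.u.swap, x.g.swap, x.d.swap⟩
  left_inv x := by ext1 <;> simp
  right_inv x := by ext1 <;> simp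
  map_mul' x y := by ext1 <;> rfl
  map_add' x y := by ext1 <;> rfl

instance : Finite AA :=
  Finite.of_injective (fun x : AA => (x.u, x.g, x.d)) (fun x y h => by
    simp only [Prod.mk.injEq] at h
    exact AA.ext h.1 h.2.1 h.2.2)

instance : Finite AAᵐᵒᵖ := Finite.of_equiv AA opEquiv

/-- A criterion for distributivity. -/
theorem isDistributive_of {S M : Type} [Ring S] [AddCommGroup M] [Module S M]
    (h : ∀ m n : M, ∃ s t : S, s + t = 1 ∧ (∃ p : S, s • m = p • n) ∧ ∃ q : S, t • n = q • m) :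
    IsDistributive S M := by
  intro F G H
  refine le_antisymm ?_ (sup_le (inf_le_inf_left _ le_sup_left) (inf_le_inf_left _ le_sup_right))
  rintro v ⟨hvF, hvGH⟩
  obtain ⟨g, hg, k, hk, rfl⟩ := Submodule.mem_sup.1 hvGH
  obtain ⟨s, t, hst, ⟨p, hp⟩, ⟨q, hq⟩⟩ := h g k
  have e : g + k = t • (g + k) + s • (g + k) := by
    rw [← add_smul, add_comm t s, hst, one_smul]
  rw [e]
  refine Submodule.add_mem_sup ⟨F.smul_mem _ hvF, ?_⟩ ⟨F.smul_mem _ hvF, ?_⟩
  · rw [smul_add, hq]
    exact G.add_mem (G.smul_mem _ hg) (G.smul_mem _ hg)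
  · rw [smul_add, hp]
    exact H.add_mem (H.smul_mem _ hk) (H.smul_mem _ hk)

/-- The right ideal `e₁ A`. -/
def N1 : Submodule AAᵐᵒᵖ AA where
  carrier := {x | x.u.2 = 0 ∧ x.g.2 = 0 ∧ x.d.2 = 0}
  zero_mem' := ⟨rfl, rfl, rfl⟩
  add_mem' := by
    rintro x y ⟨h1, h2, h3⟩ ⟨h4, h5, h6⟩
    refine ⟨?_, ?_, ?_⟩ <;> simp [*]
  smul_mem' := by
    rintro c x ⟨h1, h2, h3⟩
    refine ⟨?_, ?_, ?_⟩ <;> simp [*]

/-- The right ideal `e₂ A`. -/
def N2 : Submodule AAᵐᵒᵖ AA where
  carrier := {x | x.u.1 = 0 ∧ x.g.1 = 0 ∧ x.d.1 = 0}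
  zero_mem' := ⟨rfl, rfl, rfl⟩
  add_mem' := by
    rintro x y ⟨h1, h2, h3⟩ ⟨h4, h5, h6⟩
    refine ⟨?_, ?_, ?_⟩ <;> simp [*]
  smul_mem' := by
    rintro c x ⟨h1, h2, h3⟩
    refine ⟨?_, ?_, ?_⟩ <;> simp [*]

theorem op_smul_eq (c : AA) (x : AA) : (op c) • x = x * c := rfl

theorem isDistributive_N1 : IsDistributive AAᵐᵒᵖ N1 := by
  refine isDistributive_of ?_
  rintro ⟨⟨⟨a, a2⟩, ⟨b, b2⟩, ⟨c, c2⟩⟩, h1, h2, h3⟩ ⟨⟨⟨a', a2'⟩, ⟨b', b2'⟩, ⟨c', c2'⟩⟩, h1', h2', h3'⟩
  simp only at h1 h2 h3 h1' h2' h3'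
  subst h1 h2 h3 h1' h2' h3'
  have hdec : ∀ z : ZMod 2, z = 0 ∨ z = 1 := by decide
  have hidem : ∀ z : ZMod 2, z * (1 - z) = 0 := by decide
  rcases hdec a with rfl | rfl
  · rcases hdec a' with rfl | rfl
    · refine ⟨op ⟨(b', c'), 0, 0⟩, op ⟨(1 - b', 1 - c'), 0, 0⟩, ?_, ⟨op ⟨(b, c), 0, 0⟩, ?_⟩, 0, ?_⟩
      · apply unop_injective
        ext <;> simp
      · apply Subtype.ext
        change _ * _ = _ * _
        ext <;> simp [mul_comm]
      · apply Subtype.ext
        change _ * _ = _ * _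
        ext <;> simp [hidem]
    · refine ⟨1, 0, add_zero 1, ⟨op ⟨(0, 0), (b, 0), (c, 0)⟩, ?_⟩, 0, ?_⟩
      · apply Subtype.ext
        change _ * _ = _ * _
        ext <;> simp
      · rw [zero_smul, zero_smul]
  · refine ⟨0, 1, zero_add 1, ⟨0, by rw [zero_smul, zero_smul]⟩,
      ⟨op ⟨(a', 0), (b' - b * a', 0), (c', 0)⟩, ?_⟩⟩
    apply Subtype.ext
    change _ * _ = _ * _
    ext <;> simp

theorem isDistributive_N2 : IsDistributive AAᵐᵒᵖ N2 := by
  refine isDistributive_of ?_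
  rintro ⟨⟨⟨a2, a⟩, ⟨b2, b⟩, ⟨c2, c⟩⟩, h1, h2, h3⟩ ⟨⟨⟨a2', a'⟩, ⟨b2', b'⟩, ⟨c2', c'⟩⟩, h1', h2', h3'⟩
  simp only at h1 h2 h3 h1' h2' h3'
  subst h1 h2 h3 h1' h2' h3'
  have hdec : ∀ z : ZMod 2, z = 0 ∨ z = 1 := by decide
  have hidem : ∀ z : ZMod 2, z * (1 - z) = 0 := by decide
  rcases hdec a with rfl | rfl
  · rcases hdec a' with rfl | rfl
    · refine ⟨op ⟨(c', b'), 0, 0⟩, op ⟨(1 - c', 1 - b'), 0, 0⟩, ?_, ⟨op ⟨(c, b), 0, 0⟩, ?_⟩, 0, ?_⟩
      · apply unop_injective
        ext <;> simp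
      · apply Subtype.ext
        change _ * _ = _ * _
        ext <;> simp [mul_comm]
      · apply Subtype.ext
        change _ * _ = _ * _
        ext <;> simp [hidem]
    · refine ⟨1, 0, add_zero 1, ⟨op ⟨(0, 0), (0, b), (0, c)⟩, ?_⟩, 0, ?_⟩
      · apply Subtype.ext
        change _ * _ = _ * _
        ext <;> simp
      · rw [zero_smul, zero_smul]
  · refine ⟨0, 1, zero_add 1, ⟨0, by rw [zero_smul, zero_smul]⟩,
      ⟨op ⟨(0, a'), (0, b' - b * a'), (0, c')⟩, ?_⟩⟩
    apply Subtype.ext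
    change _ * _ = _ * _
    ext <;> simp

theorem rightSemidistributive_AA : RightSemidistributive AA := by
  refine ⟨Bool, fun b => if b then N1 else N2, ?_, ?_, ?_⟩
  · rw [iSupIndep_iff_supIndep_univ, Finset.supIndep_univ_bool]
    rw [Submodule.disjoint_def]
    rintro x hx hy
    have hx' : x ∈ N2 := hx
    have hy' : x ∈ N1 := hy
    obtain ⟨h1, h2, h3⟩ := hx'
    obtain ⟨h4, h5, h6⟩ := hy'
    ext <;> assumption
  · rw [eq_top_iff]
    intro x _
    have h1 : (⟨(x.u.1, 0), (x.g.1, 0), (x.d.1, 0)⟩ : AA) ∈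
        ⨆ b : Bool, (if b then N1 else N2 : Submodule AAᵐᵒᵖ AA) :=
      Submodule.mem_iSup_of_mem true ⟨rfl, rfl, rfl⟩
    have h2 : (⟨(0, x.u.2), (0, x.g.2), (0, x.d.2)⟩ : AA) ∈
        ⨆ b : Bool, (if b then N1 else N2 : Submodule AAᵐᵒᵖ AA) :=
      Submodule.mem_iSup_of_mem false ⟨rfl, rfl, rfl⟩
    have h3 : x = (⟨(x.u.1, 0), (x.g.1, 0), (x.d.1, 0)⟩ : AA) +
        ⟨(0, x.u.2), (0, x.g.2), (0, x.d.2)⟩ := by
      ext <;> simp
    rw [h3]
    exact add_mem h1 h2
  · intro b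
    cases b
    · exact isDistributive_N2
    · exact isDistributive_N1

/-! ### The skew Laurent series ring -/

/-- `R = A((x, φ))`. -/
abbrev RR : Type := SkewLaurent phi

/-- `γ` -/
def ga : AA := ⟨0, 1, 0⟩

/-- `δ` -/
def de : AA := ⟨0, 0, 1⟩

theorem phi_zpow_ga (n : ℤ) : (phi ^ n) ga = ga := by
  have h : phi ∈ MulAction.stabilizer (RingAut AA) ga := rfl
  exact (MulAction.stabilizer (RingAut AA) ga).zpow_mem h n

theorem phi_zpow_de (n : ℤ) : (phi ^ n) de = de := by
  have h : phi ∈ MulAction.stabilizer (RingAut AA) de := rfl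
  exact (MulAction.stabilizer (RingAut AA) de).zpow_mem h n

/-- `γ` as an element of `R` -/
def GA : RR := SkewLaurent.single 0 ga

/-- `ε = δ x` -/
def EP : RR := SkewLaurent.single 1 de

theorem coeff_GA_mul (f : RR) (m : ℤ) : (GA * f).coeff m = ⟨0, (f.coeff m).u, 0⟩ := by
  rw [GA, SkewLaurent.coeff_single_mul, sub_zero, zpow_zero]
  change ga * f.coeff m = _
  apply AA.ext <;> simp [ga]

theorem coeff_mul_GA (f : RR) (m : ℤ) : (f * GA).coeff m = ⟨0, (f.coeff m).u, 0⟩ := by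
  rw [GA, SkewLaurent.coeff_mul_single, sub_zero, phi_zpow_ga]
  apply AA.ext <;> simp [ga]

theorem coeff_EP_mul (f : RR) (m : ℤ) : (EP * f).coeff m = ⟨0, 0, (f.coeff (m - 1)).u⟩ := by
  rw [EP, SkewLaurent.coeff_single_mul, zpow_one]
  have h : (phi (f.coeff (m - 1))).u = (f.coeff (m - 1)).u.swap := rfl
  apply AA.ext <;> simp [de, h]

theorem coeff_mul_EP (f : RR) (m : ℤ) : (f * EP).coeff m = ⟨0, 0, (f.coeff (m - 1)).u⟩ := by
  rw [EP, SkewLaurent.coeff_mul_single, phi_zpow_de]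
  apply AA.ext <;> simp [de]

theorem GA_comm (f : RR) : f * GA = GA * f := by
  ext1
  funext m
  rw [coeff_mul_GA, coeff_GA_mul]

theorem EP_comm (f : RR) : f * EP = EP * f := by
  ext1
  funext m
  rw [coeff_mul_EP, coeff_EP_mul]

theorem GA_mul_eq_zero {f g : RR} (h : GA * f = EP * g) : GA * f = 0 := by
  ext1
  funext m
  have h1 := congrArg (fun z : RR => (z.coeff m).g) h
  simp only [coeff_GA_mul, coeff_EP_mul] at h1
  rw [coeff_GA_mul, h1]
  rfl

theorem GA_mul_eq_zero' {f g : RR} (h : GA * f = (GA + EP) * g) : GA * f = 0 := by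
  have hg : ∀ m, (g.coeff m).u = 0 := by
    intro m
    have h1 := congrArg (fun z : RR => (z.coeff (m + 1)).d) h
    simp only [add_mul, SkewLaurent.coeff_add, coeff_GA_mul, coeff_EP_mul, AA.add_d] at h1
    rw [add_sub_cancel_right, zero_add] at h1
    exact h1.symm
  rw [h]
  ext1
  funext m
  rw [add_mul, SkewLaurent.coeff_add, coeff_GA_mul, coeff_EP_mul, hg, hg]
  apply AA.ext <;> simp

theorem mul_ga (x : AA) : x * ga = ⟨0, x.u, 0⟩ := by
  apply AA.ext <;> simp [ga]

theorem phi_u {n : ℤ} {a : AA} (ha : a.u = 0) : ((phi ^ n) a).u = 0 := by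
  have h1 : a * ga = 0 := by rw [mul_ga, ha]; rfl
  have h2 : (phi ^ n) a * ga = 0 := by
    rw [← phi_zpow_ga n, ← map_mul, h1, map_zero]
  rw [mul_ga] at h2
  exact congrArg AA.g h2

theorem mul_self_of_GA {e : RR} (h : GA * e = 0) : e * e = 0 := by
  have hu : ∀ m, (e.coeff m).u = 0 := by
    intro m
    have h1 := congrArg (fun z : RR => (z.coeff m).g) h
    simp only [coeff_GA_mul, SkewLaurent.coeff_zero, AA.zero_g] at h1
    exact h1
  ext1
  funext m
  rw [SkewLaurent.coeff_mul, SkewLaurent.coeff_zero]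
  apply finsum_eq_zero_of_forall_eq_zero
  intro i
  apply AA.ext
  · simp [hu]
  · simp [hu, phi_u (hu _)]
  · simp [hu, phi_u (hu _)]

/-- A direct sum decomposition of `R` into right ideals yields a nonzero idempotent in one of
them. -/
theorem exists_idempotent {R : Type} [Ring R] [Nontrivial R] {I : Type}
    (N : I → Submodule Rᵐᵒᵖ R) (hind : iSupIndep N) (hsup : (⨆ i, N i) = ⊤) :
    ∃ (j : I) (e : R), e ∈ N j ∧ e ≠ 0 ∧ e * e = e := by
  classical
  have h1 : (1 : R) ∈ ⨆ i, N i := by rw [hsup]; trivial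
  obtain ⟨f, hf, hsum⟩ := (Submodule.mem_iSup_iff_exists_finsupp N 1).1 h1
  have hne : f ≠ 0 := by
    rintro rfl
    rw [Finsupp.sum_zero_index] at hsum
    exact zero_ne_one hsum
  obtain ⟨j, hj⟩ := Finsupp.ne_iff.1 hne
  refine ⟨j, f j, hf j, hj, ?_⟩
  have hmul : ∀ i (c : R), f i * c ∈ N i := fun i c => (N i).smul_mem (op c) (hf i)
  have h2 : f j - f j * f j = ∑ i ∈ f.support.erase j, f i * f j := by
    have hjs : j ∈ f.support := Finsupp.mem_support_iff.2 hj
    have h3 : f j = ∑ i ∈ f.support, f i * f j := by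
      have := congrArg (fun z => z * f j) hsum
      simp only [one_mul] at this
      rw [Finsupp.sum, Finset.sum_mul] at this
      exact this.symm
    have h4 := Finset.add_sum_erase f.support (fun i => f i * f j) hjs
    rw [← h3] at h4
    rw [sub_eq_iff_eq_add, add_comm]
    exact h4.symm
  have hmem : f j - f j * f j ∈ ⨆ i, ⨆ (_ : i ≠ j), N i := by
    rw [h2]
    refine Submodule.sum_mem _ fun i hi => ?_
    have hij : i ≠ j := Finset.ne_of_mem_erase hi
    exact Submodule.mem_iSup_of_mem i (Submodule.mem_iSup_of_mem hij (hmul i (f j)))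
  have hmem' : f j - f j * f j ∈ N j := (N j).sub_mem (hf j) (hmul j (f j))
  have h0 := Submodule.disjoint_def.1 (hind j) _ hmem' hmem
  exact (sub_eq_zero.1 h0).symm

theorem not_rightSemidistributive_RR : ¬ RightSemidistributive RR := by
  rintro ⟨I, N, hind, hsup, hdist⟩
  have : Nontrivial RR := ⟨⟨1, 0, fun h => by
    have h1 := congrArg (fun z : RR => (z.coeff 0).u.1) h
    simp [SkewLaurent.coeff_one] at h1⟩⟩
  obtain ⟨j, e, he, he0, hee⟩ := exists_idempotent N hind hsup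
  have hmem : ∀ c : RR, e * c ∈ N j := fun c => (N j).smul_mem (op c) he
  set vG : N j := ⟨e * GA, hmem GA⟩ with hvG
  set vE : N j := ⟨e * EP, hmem EP⟩ with hvE
  set vH : N j := ⟨e * (GA + EP), hmem _⟩ with hvH
  set F := Submodule.span RRᵐᵒᵖ {vG} with hF
  set G := Submodule.span RRᵐᵒᵖ {vE} with hG
  set H := Submodule.span RRᵐᵒᵖ {vH} with hH
  have hFG : F ⊓ G = ⊥ := by
    rw [eq_bot_iff]
    rintro z ⟨hz1, hz2⟩
    obtain ⟨r, rfl⟩ := Submodule.mem_span_singleton.1 hz1
    obtain ⟨s, hs⟩ := Submodule.mem_span_singleton.1 hz2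
    have h1 : e * EP * s.unop = e * GA * r.unop := congrArg Subtype.val hs
    rw [EP_comm, GA_comm, mul_assoc, mul_assoc] at h1
    have h2 := GA_mul_eq_zero h1.symm
    rw [Submodule.mem_bot]
    apply Subtype.ext
    change e * GA * r.unop = 0
    rw [GA_comm, mul_assoc, h2]
  have hFH : F ⊓ H = ⊥ := by
    rw [eq_bot_iff]
    rintro z ⟨hz1, hz2⟩
    obtain ⟨r, rfl⟩ := Submodule.mem_span_singleton.1 hz1
    obtain ⟨s, hs⟩ := Submodule.mem_span_singleton.1 hz2
    have h1 : e * (GA + EP) * s.unop = e * GA * r.unop := congrArg Subtype.val hs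
    rw [mul_add, EP_comm, GA_comm, ← add_mul, mul_assoc, mul_assoc] at h1
    have h2 := GA_mul_eq_zero' h1.symm
    rw [Submodule.mem_bot]
    apply Subtype.ext
    change e * GA * r.unop = 0
    rw [GA_comm, mul_assoc, h2]
  have hv : vG ∈ F ⊓ (G ⊔ H) := by
    refine ⟨Submodule.mem_span_singleton_self _, ?_⟩
    have h1 : vG = vH - vE := by
      apply Subtype.ext
      change e * GA = e * (GA + EP) - e * EP
      rw [mul_add, add_sub_cancel_right]
    rw [h1]
    exact sub_mem (Submodule.mem_sup_right (Submodule.mem_span_singleton_self _))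
      (Submodule.mem_sup_left (Submodule.mem_span_singleton_self _))
  rw [hdist j F G H, hFG, hFH, bot_sup_eq, Submodule.mem_bot] at hv
  have h2 : e * GA = 0 := congrArg Subtype.val hv
  rw [GA_comm] at h2
  have h3 := mul_self_of_GA h2
  rw [hee] at h3
  exact he0 h3

/-- **Negative answer to Q1.** -/
theorem result : ∃ (A : Type) (_ : Ring A) (φ : RingAut A),
    RightSemidistributive A ∧ IsArtinian Aᵐᵒᵖ A ∧ ¬ RightSemidistributive (SkewLaurent φ) :=
  ⟨AA, inferInstance, phi, rightSemidistributive_AA, inferInstance, not_rightSemidistributive_RR⟩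

end Pool.Agent.Results.MP_d4f5ca_al.SemidistributiveFails
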